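import Pool.Agent.Helper1_RL.Stmts

/-!
# RLA, module EXT: the core metric extends over the exceptional sphere
-/

noncomputable section

open scoped ContDiff Topology ENNReal RealInnerProductSpace
set_option maxSynthPendingDepth 3
open Set Metric

namespace Pool.Agent.RLim.H69

open Pool.Agent.RF

theorem inner4 (x y : E4) : ⟪x, y⟫ = x 0 * y 0 + x 1 * y 1 + x 2 * y 2 + x 3 * y 3 := by
  rw [PiLp.inner_apply, Fin.sum_univ_four]
  simp only [RCLike.inner_apply, conj_trivial]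
  ring

theorem normsq4 (x : E4) : ‖x‖ ^ 2 = x 0 ^ 2 + x 1 ^ 2 + x 2 ^ 2 + x 3 ^ 2 := by
  rw [← real_inner_self_eq_norm_sq, inner4]
  ring

/-- the vector with given coordinates -/
def vec (a b c d : ℝ) : E4 := WithLp.toLp 2 ![a, b, c, d]

@[simp] theorem vec_0 (a b c d : ℝ) : vec a b c d 0 = a := rfl
@[simp] theorem vec_1 (a b c d : ℝ) : vec a b c d 1 = b := rfl
@[simp] theorem vec_2 (a b c d : ℝ) : vec a b c d 2 = c := rfl
@[simp] theorem vec_3 (a b c d : ℝ) : vec a b c d 3 = d := rfl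

theorem JJ_0 (X : E4) : JJ X 0 = -X 1 := rfl
theorem JJ_1 (X : E4) : JJ X 1 = X 0 := rfl
theorem JJ_2 (X : E4) : JJ X 2 = -X 3 := rfl
theorem JJ_3 (X : E4) : JJ X 3 = X 2 := rfl

theorem contDiff_coord (k : Fin 4) : ContDiff ℝ ∞ (fun q : E4 => q k) :=
  (EuclideanSpace.proj k : E4 →L[ℝ] ℝ).contDiff

theorem contDiff_vec {a b c d : E4 → ℝ} (ha : ContDiff ℝ ∞ a) (hb : ContDiff ℝ ∞ b)
    (hc : ContDiff ℝ ∞ c) (hd : ContDiff ℝ ∞ d) :
    ContDiff ℝ ∞ (fun q => vec (a q) (b q) (c q) (d q)) := by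
  rw [contDiff_euclidean]
  intro k
  fin_cases k
  · exact ha
  · exact hb
  · exact hc
  · exact hd

theorem contDiff_sq {f : E4 → E4} (hf : ContDiff ℝ ∞ f) : ContDiff ℝ ∞ (fun q => sq (f q)) := by
  have h : ContDiff ℝ ∞ (fun q => del (Fin 4) (f q)) := (del (Fin 4)).contDiff.comp hf
  exact ContDiff.smulRight h h

/-- `1 + |c|²` -/
def sS (q : E4) : ℝ := 1 + q 2 ^ 2 + q 3 ^ 2

/-- `Re a c̄` -/
def mm (q : E4) : ℝ := q 0 * q 2 + q 1 * q 3

/-- `Im a c̄` -/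
def nn (q : E4) : ℝ := q 1 * q 2 - q 0 * q 3

theorem sS_pos (q : E4) : 0 < sS q := by
  unfold sS
  positivity

def Ar (q : E4) : E4 := vec (sS q) 0 (mm q) (-nn q)
def Ai (q : E4) : E4 := vec 0 (sS q) (nn q) (mm q)

/-- the extended metric -/
def Cc (b : ℝ) (q : E4) : Bil E4 :=
  (sS q)⁻¹ • (sq (Ar q) + sq (Ai q)) + (b ^ 2 * ((sS q)⁻¹) ^ 2) •
    (sq (vec 0 0 1 0) + sq (vec 0 0 0 1))

theorem Cc_apply (b : ℝ) (q V W : E4) : Cc b q V W =
    (sS q)⁻¹ * (⟪Ar q, V⟫ * ⟪Ar q, W⟫ + ⟪Ai q, V⟫ * ⟪Ai q, W⟫) +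
      b ^ 2 * ((sS q)⁻¹) ^ 2 * (V 2 * W 2 + V 3 * W 3) := by
  have h : Cc b q V W = (sS q)⁻¹ * (⟪Ar q, V⟫ * ⟪Ar q, W⟫ + ⟪Ai q, V⟫ * ⟪Ai q, W⟫) +
      b ^ 2 * ((sS q)⁻¹) ^ 2 * (⟪vec 0 0 1 0, V⟫ * ⟪vec 0 0 1 0, W⟫ +
        ⟪vec 0 0 0 1, V⟫ * ⟪vec 0 0 0 1, W⟫) := rfl
  rw [h]
  congr 2
  rw [inner4, inner4, inner4, inner4]
  simp

theorem Ar_inner (q V : E4) : ⟪Ar q, V⟫ = sS q * V 0 + mm q * V 2 - nn q * V 3 := by
  rw [inner4]
  simp only [Ar, vec_0, vec_1, vec_2, vec_3]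
  ring

theorem Ai_inner (q V : E4) : ⟪Ai q, V⟫ = sS q * V 1 + mm q * V 3 + nn q * V 2 := by
  rw [inner4]
  simp only [Ai, vec_0, vec_1, vec_2, vec_3]
  ring

theorem Cc_smooth (b : ℝ) : ContDiff ℝ ∞ (Cc b) := by
  have h0 := contDiff_coord 0
  have h1 := contDiff_coord 1
  have h2 := contDiff_coord 2
  have h3 := contDiff_coord 3
  have hs : ContDiff ℝ ∞ sS := (contDiff_const.add (h2.pow 2)).add (h3.pow 2)
  have hm : ContDiff ℝ ∞ mm := (h0.mul h2).add (h1.mul h3)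
  have hn : ContDiff ℝ ∞ nn := (h1.mul h2).sub (h0.mul h3)
  have hsi : ContDiff ℝ ∞ (fun q => (sS q)⁻¹) := hs.inv fun q => (sS_pos q).ne'
  have hr : ContDiff ℝ ∞ (fun q => sq (Ar q)) :=
    contDiff_sq (contDiff_vec hs contDiff_const hm hn.neg)
  have hi : ContDiff ℝ ∞ (fun q => sq (Ai q)) :=
    contDiff_sq (contDiff_vec contDiff_const hs hn hm)
  exact (hsi.smul (hr.add hi)).add ((contDiff_const.mul (hsi.pow 2)).smul contDiff_const)

theorem WW_open : IsOpen WW := by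
  have h0 : Continuous (fun q : E4 => q 0) := (contDiff_coord 0).continuous
  have h1 : Continuous (fun q : E4 => q 1) := (contDiff_coord 1).continuous
  have h2 : Continuous (fun q : E4 => q 2) := (contDiff_coord 2).continuous
  have h3 : Continuous (fun q : E4 => q 3) := (contDiff_coord 3).continuous
  exact isOpen_lt (by fun_prop) continuous_const

theorem Cc_metric {b : ℝ} (hb : 0 < b) : IsMetricOn (Cc b) WW := by
  refine ⟨WW_open, (Cc_smooth b).contDiffOn, ?_, ?_⟩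
  · intro q _ V W
    rw [Cc_apply, Cc_apply]
    ring
  · intro q _ V hV
    rw [Cc_apply]
    have hs := sS_pos q
    have hsi : 0 < (sS q)⁻¹ := inv_pos.2 hs
    have hb2 : 0 < b ^ 2 * ((sS q)⁻¹) ^ 2 := by positivity
    have e1 : 0 ≤ ⟪Ar q, V⟫ * ⟪Ar q, V⟫ + ⟪Ai q, V⟫ * ⟪Ai q, V⟫ :=
      add_nonneg (mul_self_nonneg _) (mul_self_nonneg _)
    have e2 : 0 ≤ V 2 * V 2 + V 3 * V 3 := add_nonneg (mul_self_nonneg _) (mul_self_nonneg _)
    by_cases hz : V 2 = 0 ∧ V 3 = 0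
    · have h01 : V 0 ≠ 0 ∨ V 1 ≠ 0 := by
        by_contra hcon
        push Not at hcon
        apply hV
        ext k
        fin_cases k
        · exact hcon.1
        · exact hcon.2
        · exact hz.1
        · exact hz.2
      have e3 : 0 < ⟪Ar q, V⟫ * ⟪Ar q, V⟫ + ⟪Ai q, V⟫ * ⟪Ai q, V⟫ := by
        rw [Ar_inner, Ai_inner, hz.1, hz.2]
        have : 0 < (sS q) ^ 2 * (V 0 ^ 2 + V 1 ^ 2) := by
          apply mul_pos (by positivity)
          rcases h01 with h | h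
          · have := pow_pos (abs_pos.2 h) 2
            rw [sq_abs] at this
            nlinarith [sq_nonneg (V 1)]
          · have := pow_pos (abs_pos.2 h) 2
            rw [sq_abs] at this
            nlinarith [sq_nonneg (V 0)]
        nlinarith
      have := mul_pos hsi e3
      have h4 := mul_nonneg hb2.le e2
      linarith
    · have e3 : 0 < V 2 * V 2 + V 3 * V 3 := by
        rw [not_and_or] at hz
        rcases hz with h | h
        · have := mul_self_pos.2 h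
          nlinarith [mul_self_nonneg (V 3)]
        · have := mul_self_pos.2 h
          nlinarith [mul_self_nonneg (V 2)]
      have := mul_pos hb2 e3
      have h4 := mul_nonneg hsi.le e1
      linarith

/-- the derivative of the chart -/
def dPhi (i : Bool) (q V : E4) : E4 := if i then
    vec (V 0 * q 2 + q 0 * V 2 - (V 1 * q 3 + q 1 * V 3))
      (V 0 * q 3 + q 0 * V 3 + (V 1 * q 2 + q 1 * V 2)) (V 0) (V 1)
  else vec (V 0) (V 1) (V 0 * q 2 + q 0 * V 2 - (V 1 * q 3 + q 1 * V 3))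
      (V 0 * q 3 + q 0 * V 3 + (V 1 * q 2 + q 1 * V 2))

theorem Phi0_contDiff (i : Bool) : ContDiff ℝ ∞ (Phi0 i) := by
  have h0 := contDiff_coord 0
  have h1 := contDiff_coord 1
  have h2 := contDiff_coord 2
  have h3 := contDiff_coord 3
  cases i
  · exact contDiff_vec h0 h1 ((h0.mul h2).sub (h1.mul h3)) ((h0.mul h3).add (h1.mul h2))
  · exact contDiff_vec ((h0.mul h2).sub (h1.mul h3)) ((h0.mul h3).add (h1.mul h2)) h0 h1

theorem fderiv_Phi0 (i : Bool) (q V : E4) : fderiv ℝ (Phi0 i) q V = dPhi i q V := by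
  have hd : DifferentiableAt ℝ (Phi0 i) q := ((Phi0_contDiff i).differentiable (by simp)) q
  have hk : ∀ k : Fin 4, (fderiv ℝ (Phi0 i) q V) k = fderiv ℝ (fun y => Phi0 i y k) q V := by
    intro k
    have h := (EuclideanSpace.proj k : E4 →L[ℝ] ℝ).hasFDerivAt.comp q hd.hasFDerivAt
    have h2 : fderiv ℝ (fun y => Phi0 i y k) q =
      (EuclideanSpace.proj k : E4 →L[ℝ] ℝ).comp (fderiv ℝ (Phi0 i) q) := h.fderiv
    rw [h2]
    rfl
  have hp : ∀ k : Fin 4, HasFDerivAt (fun y : E4 => y k) (EuclideanSpace.proj k : E4 →L[ℝ] ℝ) q :=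
    fun k => (EuclideanSpace.proj k : E4 →L[ℝ] ℝ).hasFDerivAt
  have hm : fderiv ℝ (fun y : E4 => y 0 * y 2 - y 1 * y 3) q V =
      V 0 * q 2 + q 0 * V 2 - (V 1 * q 3 + q 1 * V 3) := by
    have h : HasFDerivAt (fun y : E4 => y 0 * y 2 - y 1 * y 3) _ q :=
      ((hp 0).mul (hp 2)).sub ((hp 1).mul (hp 3))
    rw [h.fderiv]
    simp
    ring
  have hn : fderiv ℝ (fun y : E4 => y 0 * y 3 + y 1 * y 2) q V =
      V 0 * q 3 + q 0 * V 3 + (V 1 * q 2 + q 1 * V 2) := by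
    have h : HasFDerivAt (fun y : E4 => y 0 * y 3 + y 1 * y 2) _ q :=
      ((hp 0).mul (hp 3)).add ((hp 1).mul (hp 2))
    rw [h.fderiv]
    simp
    ring
  have hc : ∀ k : Fin 4, fderiv ℝ (fun y : E4 => y k) q V = V k := by
    intro k
    rw [(hp k).fderiv]
    rfl
  ext k
  rw [hk]
  cases i
  · fin_cases k
    · exact hc 0
    · exact hc 1
    · exact hm
    · exact hn
  · fin_cases k
    · exact hm
    · exact hn
    · exact hc 0
    · exact hc 1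

/-- the four polynomial identities -/
theorem idents (i : Bool) (q V W : E4) :
    ‖Phi0 i q‖ ^ 2 = (q 0 ^ 2 + q 1 ^ 2) * sS q ∧
    (⟪Phi0 i q, dPhi i q V⟫ = q 0 * ⟪Ar q, V⟫ + q 1 * ⟪Ai q, V⟫) ∧
    (⟪JJ (Phi0 i q), dPhi i q V⟫ = q 0 * ⟪Ai q, V⟫ - q 1 * ⟪Ar q, V⟫) ∧
    (sS q * ⟪dPhi i q V, dPhi i q W⟫ = ⟪Ar q, V⟫ * ⟪Ar q, W⟫ + ⟪Ai q, V⟫ * ⟪Ai q, W⟫ +
      (q 0 ^ 2 + q 1 ^ 2) * (V 2 * W 2 + V 3 * W 3)) := by
  have e0 : Phi0 false q 0 = q 0 := rfl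
  have e1 : Phi0 false q 1 = q 1 := rfl
  have e2 : Phi0 false q 2 = q 0 * q 2 - q 1 * q 3 := rfl
  have e3 : Phi0 false q 3 = q 0 * q 3 + q 1 * q 2 := rfl
  have f0 : Phi0 true q 2 = q 0 := rfl
  have f1 : Phi0 true q 3 = q 1 := rfl
  have f2 : Phi0 true q 0 = q 0 * q 2 - q 1 * q 3 := rfl
  have f3 : Phi0 true q 1 = q 0 * q 3 + q 1 * q 2 := rfl
  cases i
  · refine ⟨?_, ?_, ?_, ?_⟩
    · rw [normsq4, e0, e1, e2, e3]
      unfold sS
      ring
    · rw [inner4, Ar_inner, Ai_inner, e0, e1, e2, e3]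
      simp only [dPhi, vec_0, vec_1, vec_2, vec_3, sS, mm, nn, if_neg, Bool.false_eq_true,
        not_false_eq_true]
      ring
    · rw [inner4, Ar_inner, Ai_inner, JJ_0, JJ_1, JJ_2, JJ_3, e0, e1, e2, e3]
      simp only [dPhi, vec_0, vec_1, vec_2, vec_3, sS, mm, nn, if_neg, Bool.false_eq_true,
        not_false_eq_true]
      ring
    · rw [inner4, Ar_inner, Ai_inner, Ar_inner, Ai_inner]
      simp only [dPhi, vec_0, vec_1, vec_2, vec_3, sS, mm, nn, if_neg, Bool.false_eq_true,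
        not_false_eq_true]
      ring
  · refine ⟨?_, ?_, ?_, ?_⟩
    · rw [normsq4, f0, f1, f2, f3]
      unfold sS
      ring
    · rw [inner4, Ar_inner, Ai_inner, f0, f1, f2, f3]
      simp only [dPhi, vec_0, vec_1, vec_2, vec_3, sS, mm, nn, if_true]
      ring
    · rw [inner4, Ar_inner, Ai_inner, JJ_0, JJ_1, JJ_2, JJ_3, f0, f1, f2, f3]
      simp only [dPhi, vec_0, vec_1, vec_2, vec_3, sS, mm, nn, if_true]
      ring
    · rw [inner4, Ar_inner, Ai_inner, Ar_inner, Ai_inner]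
      simp only [dPhi, vec_0, vec_1, vec_2, vec_3, sS, mm, nn, if_true]
      ring

/-- **Module EXT** -/
theorem ext : ExtStmt := by
  intro b hb i
  refine ⟨Cc b, Cc_metric hb, ?_⟩
  intro q _ hq
  ext V W
  rw [pullb_apply, fderiv_Phi0, fderiv_Phi0, Cc_apply]
  unfold coreM
  rw [gen_apply]
  obtain ⟨i1, i2, i3, i4⟩ := idents i q V W
  obtain ⟨-, j2, j3, -⟩ := idents i q W V
  have hN : 0 < q 0 ^ 2 + q 1 ^ 2 := by
    rcases hq with h | h
    · have := pow_pos (abs_pos.2 h) 2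
      rw [sq_abs] at this
      nlinarith [sq_nonneg (q 1)]
    · have := pow_pos (abs_pos.2 h) 2
      rw [sq_abs] at this
      nlinarith [sq_nonneg (q 0)]
  have hs := sS_pos q
  have i4' : ⟪dPhi i q V, dPhi i q W⟫ = (⟪Ar q, V⟫ * ⟪Ar q, W⟫ + ⟪Ai q, V⟫ * ⟪Ai q, W⟫ +
      (q 0 ^ 2 + q 1 ^ 2) * (V 2 * W 2 + V 3 * W 3)) / sS q := by
    rw [← i4]
    field_simp
  rw [i1, i2, i3, j2, j3, i4']
  generalize ⟪Ar q, V⟫ = a1
  generalize ⟪Ar q, W⟫ = a2
  generalize ⟪Ai q, V⟫ = a3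
  generalize ⟪Ai q, W⟫ = a4
  have hN' := hN.ne'
  have hs' := hs.ne'
  field_simp
  ring

end Pool.Agent.RLim.H69
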