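import Pool.Agent.Helper1_RL.Stmts
import Pool.Agent.Helper36_RF.Chr

/-!
# RLA, module SCL: scaling and translation of a metric
-/

noncomputable section

open scoped ContDiff Topology ENNReal RealInnerProductSpace
set_option maxSynthPendingDepth 3
open Set Metric

namespace Pool.Agent.RLim.H69

open Pool.Agent.RF

variable {G : E4 → Bil E4} {U : Set E4} {w : ℝ} {Q : E4}

/-- the affine map -/
def aff (w : ℝ) (Q : E4) (X : E4) : E4 := w⁻¹ • (X - Q)

theorem aff_hasFDerivAt (w : ℝ) (Q X : E4) :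
    HasFDerivAt (aff w Q) (w⁻¹ • ContinuousLinearMap.id ℝ E4) X :=
  ((hasFDerivAt_id X).sub_const Q).const_smul w⁻¹

theorem aff_contDiff (w : ℝ) (Q : E4) : ContDiff ℝ ∞ (aff w Q) :=
  (contDiff_id.sub contDiff_const).const_smul w⁻¹

/-- derivative of a composition with the affine map -/
theorem fderiv_aff {F : Type*} [NormedAddCommGroup F] [NormedSpace ℝ F] {f : E4 → F} {X : E4}
    (hf : DifferentiableAt ℝ f (aff w Q X)) (v : E4) :
    fderiv ℝ (fun Y => f (aff w Q Y)) X v = w⁻¹ • fderiv ℝ f (aff w Q X) v := by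
  have h := hf.hasFDerivAt.comp X (aff_hasFDerivAt w Q X)
  have h2 : fderiv ℝ (fun Y => f (aff w Q Y)) X =
      (fderiv ℝ f (aff w Q X)).comp (w⁻¹ • ContinuousLinearMap.id ℝ E4) := h.fderiv
  rw [h2]
  simp

theorem chris_aff (hG : IsMetricOn G U) {X : E4} (hX : aff w Q X ∈ U) (v v' : E4) :
    chris (fun Y => G (aff w Q Y)) X v v' = w⁻¹ • chris G (aff w Q X) v v' := by
  have h : kos (fderiv ℝ (fun Y => G (aff w Q Y)) X) v v' =
      w⁻¹ • kos (fderiv ℝ G (aff w Q X)) v v' := by
    ext z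
    rw [_root_.smul_apply, kos_apply, kos_apply, fderiv_aff (hG.diffAt hX),
      fderiv_aff (hG.diffAt hX), fderiv_aff (hG.diffAt hX)]
    simp only [_root_.smul_apply, smul_eq_mul]
    ring
  unfold chris
  rw [h, map_smul]

/-- **Module SCL** -/
theorem scl : SclStmt := by
  intro G U w Q hw hG
  have hopen : IsOpen {X | aff w Q X ∈ U} := hG.isOpen.preimage (aff_contDiff w Q).continuous
  refine ⟨⟨hopen, ?_, fun X hX v v' => hG.symm _ hX v v', fun X hX v hv => hG.pos _ hX v hv⟩, ?_⟩
  · exact hG.smooth.comp (aff_contDiff w Q).contDiffOn (fun X hX => hX)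
  · intro X hX V
    have hX' : aff w Q X ∈ U := hX
    have hev : ∀ v v' : E4, (fun Y => chris (fun Y => G (aff w Q Y)) Y v v') =ᶠ[𝓝 X]
        (fun Y => w⁻¹ • chris G (aff w Q Y) v v') := by
      intro v v'
      filter_upwards [hopen.mem_nhds hX'] with Y hY
      exact chris_aff hG hY v v'
    have hd : ∀ v v' u : E4, fderiv ℝ (fun Y => chris (fun Y => G (aff w Q Y)) Y v v') X u =
        (w ^ 2)⁻¹ • fderiv ℝ (fun y => chris G y v v') (aff w Q X) u := by
      intro v v' u
      rw [(hev v v').fderiv_eq]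
      have h1 : DifferentiableAt ℝ (fun y => w⁻¹ • chris G y v v') (aff w Q X) :=
        (hG.diffAt_chris hX' v v').const_smul w⁻¹
      rw [fderiv_aff (f := fun y => w⁻¹ • chris G y v v') h1,
        fderiv_fun_const_smul (hG.diffAt_chris hX' v v')]
      rw [_root_.smul_apply, smul_smul]
      congr 1
      rw [pow_two, mul_inv]
    have hr : ∀ u v v' : E4, riem (fun Y => G (aff w Q Y)) X u v v' =
        (w ^ 2)⁻¹ • riem G (aff w Q X) u v v' := by
      intro u v v'
      unfold riem
      rw [hd, hd]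
      simp only [chris_aff hG hX', chris_smul_right, smul_smul, smul_add, smul_sub]
      have e : w⁻¹ * w⁻¹ = (w ^ 2)⁻¹ := by rw [pow_two, mul_inv]
      rw [e]
    show ric (fun Y => G (aff w Q Y)) X V V = (w ^ 2)⁻¹ * ric G (aff w Q X) V V
    unfold ric
    rw [Finset.mul_sum]
    refine Finset.sum_congr rfl fun i _ => ?_
    rw [hr]
    rfl

end Pool.Agent.RLim.H69
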